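import Pool.Agent.H215R2.EZ.All

/-!
Every action of an amenable discrete group on a unital C*-algebra which is uniformly McDuff (in
particular on every unital separable Jiang-Su stable C*-algebra, in the form of the
Rørdam-Winter / Toms-Winter criterion `ZSt`) has equivariant uniform property Gamma.

Formalised by helpers 835, 959, 255, 323, 900, 960, 864, 274, 796, 320, 924, 298, 376, 648, 649,
455, 7, 855, 926, 412, 992, 105, 394, 392, 13, 809, 347, 195, 511, 464, 894, 722, 224, 284, 199,
219 and 215; mathematics and assembly: helper215.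
-/

namespace Pool.Agent.Results.MP_ba6511_an.EquivariantGamma

universe u v

theorem result : ∀ (A : Type u) [CStarAlgebra A], (H215EZ.ZSt A ∨ H215EZ.UMD A) →
    ∀ (G : Type v) [Group G], H215EZ.Reiter G → ∀ α : G →* (A ≃⋆ₐ[ℂ] A),
    H215EZ.EqHaar A G α ∧ H215EZ.EqGamma A G α := by
  intro A _ hA G _ hG α
  exact H215EZ.all_FIN A hA G hG α

end Pool.Agent.Results.MP_ba6511_an.EquivariantGamma
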